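import Pool.Agent.Q239.Hex.Data

/-!
# Integer checks for the drawing
-/

set_option autoImplicit false

namespace Pool.Agent.Q239.Hex

/-- vertex point -/
def vp (v : Fin 14) : ℤ × ℤ := P.getD v.val (0, 0)

/-- first end -/
def es (e : Fin 66) : Fin 14 := (EL.getD e.val (0, 0, [])).1
/-- second end -/
def et (e : Fin 66) : Fin 14 := (EL.getD e.val (0, 0, [])).2.1
/-- bends -/
def eb (e : Fin 66) : List (ℤ × ℤ) := (EL.getD e.val (0, 0, [])).2.2

/-- corners -/
def ec (e : Fin 66) : List (ℤ × ℤ) := vp (es e) :: (eb e ++ [vp (et e)])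

/-- pieces -/
def ep (e : Fin 66) : List ((ℤ × ℤ) × (ℤ × ℤ)) := (ec e).zip (ec e).tail

/-- orientation of integer points -/
def iori (a b c : ℤ × ℤ) : ℤ := (b.1 - a.1) * (c.2 - a.2) - (b.2 - a.2) * (c.1 - a.1)

/-- two pieces are separated -/
def sep (s t : (ℤ × ℤ) × (ℤ × ℤ)) : Bool :=
  0 < iori s.1 s.2 t.1 * iori s.1 s.2 t.2 || 0 < iori t.1 t.2 s.1 * iori t.1 t.2 s.2

/-- two pieces cross properly -/
def crs (s t : (ℤ × ℤ) × (ℤ × ℤ)) : Bool :=
  iori s.1 s.2 t.1 * iori s.1 s.2 t.2 < 0 && iori t.1 t.2 s.1 * iori t.1 t.2 s.2 < 0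

/-- two pieces meet in a common corner, which is a common end `v` of both edges -/
def shr (e f : Fin 66) (s t : (ℤ × ℤ) × (ℤ × ℤ)) : Bool :=
  (es e == es f && s.1 == vp (es e) && t.1 == vp (es e) && iori s.1 s.2 t.2 != 0) ||
  (es e == et f && s.1 == vp (es e) && t.2 == vp (es e) && iori s.1 s.2 t.1 != 0) ||
  (et e == es f && s.2 == vp (et e) && t.1 == vp (et e) && iori s.2 s.1 t.2 != 0) ||
  (et e == et f && s.2 == vp (et e) && t.2 == vp (et e) && iori s.2 s.1 t.1 != 0)

/-- do two edges have a common end -/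
def adj (e f : Fin 66) : Bool := es e == es f || es e == et f || et e == es f || et e == et f

/-- crossing table -/
def ct (e f : Fin 66) : Bool := (nbL.getD e.val []).contains f

/-- all checks for a pair of edges -/
def chk (e f : Fin 66) : Bool :=
  (ep e).all (fun s => (ep f).all (fun t =>
    sep s t || (crs s t && ct e f && !adj e f) || shr e f s t)) &&
  (if ct e f then (((ep e).product (ep f)).filter (fun q => crs q.1 q.2)).length == 1 else true)

theorem chk_all : ∀ e f : Fin 66, e ≠ f → chk e f = true := by decide +kernel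

/-- checks for a single edge -/
def chk1 (e : Fin 66) : Bool :=
  es e != et e && (ep e).all (fun s => s.1 != s.2) &&
  (List.range (ep e).length).all (fun j => (List.range j).all (fun i =>
    if j = i + 1 then iori (((ep e).getD i (0, 0)).1) (((ep e).getD i (0, 0)).2)
      (((ep e).getD j (0, 0)).2) != 0
    else sep ((ep e).getD i (0, 0)) ((ep e).getD j (0, 0))))

theorem chk1_all : ∀ e : Fin 66, chk1 e = true := by decide +kernel

theorem chkv_all : ∀ (v : Fin 14) (e : Fin 66), v = es e ∨ v = et e ∨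
    (ep e).all (fun s => iori s.1 s.2 (vp v) != 0) = true := by decide +kernel

theorem vp_inj : ∀ u v : Fin 14, vp u = vp v → u = v := by decide +kernel

/-- separating vertices for parallel edges -/
theorem par_all : ∀ e f : Fin 66, e ≠ f → (es e = es f ∧ et e = et f → ∃ u v : Fin 14,
    u ≠ es e ∧ u ≠ et e ∧ v ≠ es e ∧ v ≠ et e ∧
    kapsum (ec e) (vp u) - kapsum (ec f) (vp u) ≠ kapsum (ec e) (vp v) - kapsum (ec f) (vp v)) ∧
    ¬ (es e = et f ∧ et e = es f) := by decide +kernel

theorem deg_all : ∀ e : Fin 66, (nbL.getD e.val []).length ≤ 3 := by decide +kernel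

end Pool.Agent.Q239.Hex
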