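import Pool.Agent.Q239.Hex.Draw

/-!
# No partition into a 2-plane graph and a forest
-/

set_option autoImplicit false

namespace Pool.Agent.Q239.Hex

open TopGraph

/-- does the edge join the two vertices -/
def jn (e : Fin 66) (u v : Fin 14) : Bool := (es e == u && et e == v) || (es e == v && et e == u)

/-- is a list of (edge, vertex) pairs a cycle -/
def isCyc (L : List (Fin 66 × Fin 14)) : Bool :=
  decide (L ≠ []) && decide ((L.map Prod.fst).Nodup) && decide ((L.map Prod.snd).Nodup) &&
  (L.zip (L.rotate 1)).all (fun q => jn q.1.1 q.1.2 q.2.2)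

lemma not_forest {A : Finset (Fin 66)} {L : List (Fin 66 × Fin 14)} (h : isCyc L = true)
    (hA : ∀ q ∈ L, q.1 ∈ A) : ¬ G.IsForest A := by
  simp only [isCyc, Bool.and_eq_true, decide_eq_true_eq, List.all_eq_true] at h
  obtain ⟨⟨⟨h0, h1⟩, h2⟩, h3⟩ := h
  obtain ⟨k, hk⟩ : ∃ k, L.length = k + 1 :=
    ⟨L.length - 1, by have := List.length_pos_iff.mpr h0; omega⟩
  intro hf
  apply hf
  refine ⟨k, fun i => (L[i.val]'(by rw [hk]; exact i.isLt)).2,
    fun i => (L[i.val]'(by rw [hk]; exact i.isLt)).1, ?_, ?_, ?_⟩
  · intro i j hij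
    have := (List.nodup_iff_injective_get.mp h2) (a₁ := ⟨i.val, by have := i.isLt; simp [hk]; omega⟩)
      (a₂ := ⟨j.val, by have := j.isLt; simp [hk]; omega⟩) (by simpa using hij)
    exact Fin.ext (by simpa using this)
  · intro i j hij
    have := (List.nodup_iff_injective_get.mp h1) (a₁ := ⟨i.val, by have := i.isLt; simp [hk]; omega⟩)
      (a₂ := ⟨j.val, by have := j.isLt; simp [hk]; omega⟩) (by simpa using hij)
    exact Fin.ext (by simpa using this)
  · intro i
    have hi : i.val < L.length := by rw [hk]; exact i.isLt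
    refine ⟨hA _ (List.getElem_mem hi), ?_⟩
    have hz : i.val < (L.zip (L.rotate 1)).length := by
      rw [List.length_zip, List.length_rotate, min_self]; exact hi
    have h4 := h3 _ (List.getElem_mem hz)
    rw [List.getElem_zip] at h4
    simp only [jn, Bool.or_eq_true, Bool.and_eq_true, beq_iff_eq] at h4
    have h5 : ((L.rotate 1)[i.val]'(by rw [List.length_rotate]; exact hi)) =
        L[(i + 1 : Fin (k + 1)).val]'(by rw [hk]; exact (i + 1).isLt) := by
      rw [List.getElem_rotate]
      congr 1
      rw [hk, Fin.val_add, Fin.val_one']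
      rw [Nat.add_mod_mod]
    rw [h5] at h4
    exact h4

/-- edge number `8 a + j` of copy `c` -/
def ed (c : ℕ) (t : ℕ) : Fin 66 := Fin.ofNat 66 (18 + 24 * c + t)

/-- the mask `S` of removed edges leaves the face number `i` 2-plane -/
def domi (i : ℕ) (S : ℕ) : Bool :=
  (List.range 8).all (fun j => S.testBit j ||
    decide (((List.range 8).filter (fun k => ct (Fin.ofNat 66 (18 + 8 * i + j))
      (Fin.ofNat 66 (18 + 8 * i + k)) && !S.testBit k)).length ≤ 2))

theorem domi_all : ∀ i : Fin 6, ∀ S : Fin 256, domi i.val S.val = true →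
    (minsL.getD i.val []).any (fun M => M &&& S.val == M) = true := by decide +kernel

theorem mins_lt : ∀ i : Fin 6, ∀ M ∈ minsL.getD i.val [], M < 256 := by decide +kernel

/-- each face contains one of the minimal sets -/
lemma face_min {A B : Finset (Fin 66)} (hAB : A ∪ B = Finset.univ)
    (hA : G.IsPlane 2 A) (i : Fin 6) : ∃ M ∈ minsL.getD i.val [],
      ∀ j < 8, M.testBit j = true → Fin.ofNat 66 (18 + 8 * i.val + j) ∈ B := by
  classical
  set f : Fin 8 → Bool := fun j => decide (Fin.ofNat 66 (18 + 8 * i.val + j.val) ∈ B) with hf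
  set S := Nat.ofBits f with hS
  have hS256 : S < 256 := by
    have := Nat.ofBits_lt_two_pow f
    simpa using this
  have hbit : ∀ j (hj : j < 8), S.testBit j = f ⟨j, hj⟩ := fun j hj => Nat.testBit_ofBits_lt f j hj
  have hdom : domi i.val S = true := by
    rw [domi, List.all_eq_true]
    intro j hj
    rw [List.mem_range] at hj
    rw [Bool.or_eq_true, decide_eq_true_eq]
    by_cases hjb : S.testBit j = true
    · exact Or.inl hjb
    right
    have hjB : Fin.ofNat 66 (18 + 8 * i.val + j) ∉ B := by
      intro h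
      apply hjb
      rw [hbit j hj, hf]
      simpa using h
    have hjA : Fin.ofNat 66 (18 + 8 * i.val + j) ∈ A := by
      have := Finset.mem_univ (Fin.ofNat 66 (18 + 8 * i.val + j))
      rw [← hAB, Finset.mem_union] at this
      exact this.resolve_right hjB
    have h2 := hA _ hjA
    refine le_trans ?_ h2
    set l := (List.range 8).filter (fun k => ct (Fin.ofNat 66 (18 + 8 * i.val + j))
      (Fin.ofNat 66 (18 + 8 * i.val + k)) && !S.testBit k) with hl
    have hnd : (l.map (fun k => (Fin.ofNat 66 (18 + 8 * i.val + k) : Fin 66))).Nodup := by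
      apply List.Nodup.map_on
      · intro a ha b hb hab
        have ha8 : a < 8 := List.mem_range.mp (List.mem_filter.mp ha).1
        have hb8 : b < 8 := List.mem_range.mp (List.mem_filter.mp hb).1
        have := congrArg Fin.val hab
        simp only [Fin.ofNat] at this
        have hi := i.isLt
        omega
      · exact List.nodup_range.filter _
    calc l.length = (l.map (fun k => (Fin.ofNat 66 (18 + 8 * i.val + k) : Fin 66))).length := by
          rw [List.length_map]
      _ = (l.map (fun k => (Fin.ofNat 66 (18 + 8 * i.val + k) : Fin 66))).toFinset.card :=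
          (List.toFinset_card_of_nodup hnd).symm
      _ ≤ _ := by
          apply Finset.card_le_card
          intro e he
          rw [List.mem_toFinset, List.mem_map] at he
          obtain ⟨k, hk, rfl⟩ := he
          rw [hl, List.mem_filter, List.mem_range, Bool.and_eq_true] at hk
          obtain ⟨hk8, hc, hk3⟩ := hk
          have hkB : Fin.ofNat 66 (18 + 8 * i.val + k) ∉ B := by
            intro h
            rw [hbit k hk8, hf] at hk3
            simp only [Bool.not_eq_true', decide_eq_false_iff_not] at hk3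
            exact hk3 h
          have hkA : Fin.ofNat 66 (18 + 8 * i.val + k) ∈ A := by
            have := Finset.mem_univ (Fin.ofNat 66 (18 + 8 * i.val + k))
            rw [← hAB, Finset.mem_union] at this
            exact this.resolve_right hkB
          rw [Finset.mem_filter]
          refine ⟨hkA, ?_⟩
          have hne : (Fin.ofNat 66 (18 + 8 * i.val + j) : Fin 66) ≠ Fin.ofNat 66 (18 + 8 * i.val + k) := by
            intro h
            have hself : ∀ e : Fin 66, ct e e = false := by decide +kernel
            rw [h, hself] at hc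
            exact Bool.false_ne_true hc
          exact (cross_iff hne).mpr hc
  have hany := domi_all i ⟨S, hS256⟩ hdom
  rw [List.any_eq_true] at hany
  obtain ⟨M, hM, hMS⟩ := hany
  refine ⟨M, hM, ?_⟩
  intro j hj hjM
  rw [beq_iff_eq] at hMS
  have h1 : (M &&& S).testBit j = true := by
    have : (M &&& (⟨S, hS256⟩ : Fin 256).val) = M := hMS
    rw [show (M &&& S) = M from this]; exact hjM
  rw [Nat.testBit_and, Bool.and_eq_true] at h1
  have h2 := h1.2
  rw [hbit j hj, hf] at h2
  simpa using h2

/-- every triple of minimal sets contains a listed cycle or path -/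
def hit (c : ℕ) (cy pa : List (ℕ × List (Fin 66 × Fin 14))) : Bool :=
  (minsL.getD (3 * c) []).all fun M0 => (minsL.getD (3 * c + 1) []).all fun M1 =>
    (minsL.getD (3 * c + 2) []).all fun M2 =>
      (cy.any fun w => w.1 &&& (M0 ||| (M1 <<< 8) ||| (M2 <<< 16)) == w.1) ||
      (pa.any fun w => w.1 &&& (M0 ||| (M1 <<< 8) ||| (M2 <<< 16)) == w.1)

theorem hit1 : hit 0 cyc1 pth1 = true := by decide +kernel
theorem hit2 : hit 1 cyc2 pth2 = true := by decide +kernel

/-- the mask of a list is the given one -/
def maskOk (c : ℕ) (w : ℕ × List (Fin 66 × Fin 14)) : Bool :=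
  w.2.all (fun q => decide (18 + 24 * c ≤ q.1.val) && decide (q.1.val < 18 + 24 * c + 24) &&
    w.1.testBit (q.1.val - (18 + 24 * c)))

theorem mask1 : (cyc1 ++ pth1).all (maskOk 0) = true := by decide +kernel
theorem mask2 : (cyc2 ++ pth2).all (maskOk 1) = true := by decide +kernel

theorem cyc1_ok : cyc1.all (fun w => isCyc w.2) = true := by decide +kernel
theorem cyc2_ok : cyc2.all (fun w => isCyc w.2) = true := by decide +kernel

/-- the reversed path, from `1` to `0` -/
def rev (L : List (Fin 66 × Fin 14)) : List (Fin 66 × Fin 14) :=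
  (L.map Prod.fst).reverse.zip (1 :: (L.map Prod.snd).tail.reverse)

theorem pth_ok : pth1.all (fun w => pth2.all (fun w' => isCyc (w.2 ++ rev w'.2))) = true := by
  decide +kernel

/-- from the three minimal sets of a copy to a cycle or a path -/
lemma copy_case {B : Finset (Fin 66)} (c : ℕ) (hc : c < 2) (cy pa : List (ℕ × List (Fin 66 × Fin 14)))
    (hhit : hit c cy pa = true) (hmask : (cy ++ pa).all (maskOk c) = true)
    (hB : ∀ i : Fin 6, ∃ M ∈ minsL.getD i.val [],
      ∀ j < 8, M.testBit j = true → Fin.ofNat 66 (18 + 8 * i.val + j) ∈ B) :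
    (∃ w ∈ cy, ∀ q ∈ w.2, q.1 ∈ B) ∨ (∃ w ∈ pa, ∀ q ∈ w.2, q.1 ∈ B) := by
  obtain ⟨M0, h0, k0⟩ := hB ⟨3 * c, by omega⟩
  obtain ⟨M1, h1, k1⟩ := hB ⟨3 * c + 1, by omega⟩
  obtain ⟨M2, h2, k2⟩ := hB ⟨3 * c + 2, by omega⟩
  have l0 := mins_lt ⟨3 * c, by omega⟩ M0 h0
  have l1 := mins_lt ⟨3 * c + 1, by omega⟩ M1 h1
  simp only at h0 h1 h2 k0 k1 k2
  have key : ∀ w : ℕ × List (Fin 66 × Fin 14), maskOk c w = true →
      (w.1 &&& (M0 ||| (M1 <<< 8) ||| (M2 <<< 16)) == w.1) = true → ∀ q ∈ w.2, q.1 ∈ B := by
    intro w hw hwm q hq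
    rw [maskOk, List.all_eq_true] at hw
    have h3 := hw q hq
    simp only [Bool.and_eq_true, decide_eq_true_eq] at h3
    obtain ⟨⟨h3, h4⟩, h5⟩ := h3
    rw [beq_iff_eq] at hwm
    rw [← hwm, Nat.testBit_and, Bool.and_eq_true, Nat.testBit_or, Nat.testBit_or,
      Nat.testBit_shiftLeft, Nat.testBit_shiftLeft] at h5
    have h6 := h5.2
    simp only [Bool.or_eq_true, Bool.and_eq_true, decide_eq_true_eq] at h6
    have hq66 := q.1.isLt
    rcases h6 with (h6 | ⟨h7, h6⟩) | ⟨h7, h6⟩
    · have ht : q.1.val - (18 + 24 * c) < 8 := by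
        by_contra hcon
        push Not at hcon
        have : M0 < 2 ^ (q.1.val - (18 + 24 * c)) :=
          lt_of_lt_of_le l0 (by
            calc 256 = 2 ^ 8 := by norm_num
              _ ≤ _ := Nat.pow_le_pow_right (by norm_num) hcon)
        rw [Nat.testBit_lt_two_pow this] at h6
        exact Bool.false_ne_true h6
      have h8 := k0 _ ht h6
      convert h8 using 1
      apply Fin.ext
      simp only [Fin.ofNat]
      omega
    · have ht : q.1.val - (18 + 24 * c) - 8 < 8 := by
        by_contra hcon
        push Not at hcon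
        have : M1 < 2 ^ (q.1.val - (18 + 24 * c) - 8) :=
          lt_of_lt_of_le l1 (by
            calc 256 = 2 ^ 8 := by norm_num
              _ ≤ _ := Nat.pow_le_pow_right (by norm_num) hcon)
        rw [Nat.testBit_lt_two_pow this] at h6
        exact Bool.false_ne_true h6
      have h8 := k1 _ ht h6
      convert h8 using 1
      apply Fin.ext
      simp only [Fin.ofNat]
      omega
    · have h8 := k2 _ (by omega) h6
      convert h8 using 1
      apply Fin.ext
      simp only [Fin.ofNat]
      omega
  rw [List.all_eq_true] at hmask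
  rw [hit, List.all_eq_true] at hhit
  have g0 := hhit M0 h0
  rw [List.all_eq_true] at g0
  have g1 := g0 M1 h1
  rw [List.all_eq_true] at g1
  have g2 := g1 M2 h2
  rw [Bool.or_eq_true, List.any_eq_true, List.any_eq_true] at g2
  rcases g2 with ⟨w, hw, hwm⟩ | ⟨w, hw, hwm⟩
  · exact Or.inl ⟨w, hw, key w (hmask w (List.mem_append_left _ hw)) hwm⟩
  · exact Or.inr ⟨w, hw, key w (hmask w (List.mem_append_right _ hw)) hwm⟩

lemma mem_rev {L : List (Fin 66 × Fin 14)} {q : Fin 66 × Fin 14} (h : q ∈ rev L) :
    ∃ q' ∈ L, q'.1 = q.1 := by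
  have h1 := (List.of_mem_zip (a := q.1) (b := q.2) h).1
  rw [List.mem_reverse, List.mem_map] at h1
  exact h1

theorem no_partition (A B : Finset (Fin 66)) (hAB : A ∪ B = Finset.univ) (hA : G.IsPlane 2 A) :
    ¬ G.IsForest B := by
  have hB := fun i => face_min hAB hA i
  have c1 := cyc1_ok
  have c2 := cyc2_ok
  have cp := pth_ok
  rw [List.all_eq_true] at c1 c2 cp
  rcases copy_case 0 (by norm_num) cyc1 pth1 hit1 mask1 hB with ⟨w, hw, h⟩ | ⟨w, hw, h⟩
  · exact not_forest (c1 w hw) h
  rcases copy_case 1 (by norm_num) cyc2 pth2 hit2 mask2 hB with ⟨w', hw', h'⟩ | ⟨w', hw', h'⟩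
  · exact not_forest (c2 w' hw') h'
  have h3 := cp w hw
  rw [List.all_eq_true] at h3
  refine not_forest (h3 w' hw') ?_
  intro q hq
  rcases List.mem_append.mp hq with hq | hq
  · exact h q hq
  · obtain ⟨q', hq', he⟩ := mem_rev hq
    rw [← he]
    exact h' q' hq'

end Pool.Agent.Q239.Hex
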