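import Pool.Agent.Q239.Hex.Defs

/-!
# The drawing: 14 vertices, 66 edges (18 uncrossed edges, then six groups of eight chords)
-/

set_option autoImplicit false

namespace Pool.Agent.Q239.Hex

/-- coordinates of the vertices -/
def P : List (ℤ × ℤ) := [(-480, 0), (160, 0), (-320, 32), (-120, 40), (0, 3), (-120, -40), (-320, -32), (80, -4), (-280, 400), (280, 400), (480, 13), (280, -400), (-280, -400), (320, -10)]

/-- ends and bends of the edges -/
def EL : List (Fin 14 × Fin 14 × List (ℤ × ℤ)) := [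
  (0, 2, []),
  (2, 3, []),
  (3, 4, []),
  (4, 5, []),
  (5, 6, []),
  (0, 6, []),
  (1, 7, []),
  (4, 7, []),
  (0, 8, []),
  (8, 9, []),
  (9, 10, []),
  (10, 11, []),
  (11, 12, []),
  (0, 12, []),
  (1, 13, []),
  (10, 13, []),
  (0, 1, [(0, 200)]),
  (0, 1, [(0, -200)]),
  (0, 3, [(-277, 16)]),
  (0, 5, [(-280, -15)]),
  (2, 4, [(-180, 21)]),
  (2, 5, [(-235, 4), (-230, 2)]),
  (2, 6, [(-351, 1)]),
  (3, 5, [(-112, 3)]),
  (3, 6, [(-218, 2), (-229, -2)]),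
  (4, 6, [(-176, -21)]),
  (0, 7, [(0, 170), (73, 65)]),
  (0, 4, [(-17, 115), (-6, 116)]),
  (0, 3, [(-161, 76)]),
  (1, 4, [(40, 58)]),
  (1, 2, [(0, 171), (-222, 65)]),
  (3, 7, [(0, 58)]),
  (2, 7, [(-11, 113), (0, 109)]),
  (2, 4, [(-64, 77)]),
  (0, 7, [(0, -170), (73, -65)]),
  (0, 4, [(-17, -115), (-6, -116)]),
  (0, 5, [(-161, -76)]),
  (1, 4, [(40, -62)]),
  (1, 6, [(0, -171), (-222, -65)]),
  (5, 7, [(0, -54)]),
  (6, 7, [(-11, -113), (0, -109)]),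
  (4, 6, [(-64, -77)]),
  (0, 13, [(30, 245), (117, 173)]),
  (0, 10, [(61, 324), (91, 324)]),
  (0, 9, [(-101, 360)]),
  (1, 10, [(199, 156)]),
  (1, 8, [(29, 244), (-178, 172)]),
  (9, 13, [(293, 156)]),
  (8, 13, [(98, 327), (116, 292)]),
  (8, 10, [(187, 363)]),
  (0, 13, [(30, -245), (117, -173)]),
  (0, 10, [(61, -324), (91, -324)]),
  (0, 11, [(-101, -360)]),
  (1, 10, [(199, -166)]),
  (1, 12, [(29, -244), (-178, -172)]),
  (11, 13, [(293, -142)]),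
  (12, 13, [(98, -327), (116, -290)]),
  (10, 12, [(187, -363)]),
  (0, 9, [(-339, 518)]),
  (0, 11, [(-329, -499)]),
  (8, 10, [(331, 501)]),
  (8, 11, [(1425, 2691), (2771, 13)]),
  (8, 12, [(-597, 0)]),
  (9, 11, [(568, 13)]),
  (9, 12, [(1488, 13), (784, -1408)]),
  (10, 12, [(323, -487)])]

/-- for every edge the list of the edges that cross it -/
def nbL : List (List (Fin 66)) := [
  [],
  [],
  [],
  [],
  [],
  [],
  [],
  [],
  [],
  [],
  [],
  [],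
  [],
  [],
  [],
  [],
  [],
  [],
  [22, 20, 21],
  [22, 24, 25],
  [18, 23, 24],
  [18, 24, 25],
  [18, 19],
  [20, 25],
  [19, 20, 21],
  [19, 21, 23],
  [30, 29],
  [30, 31, 32],
  [30, 32, 33],
  [26, 31, 32],
  [26, 27, 28],
  [27, 29, 33],
  [27, 28, 29],
  [28, 31],
  [38, 37],
  [38, 39, 40],
  [38, 40, 41],
  [34, 39, 40],
  [34, 35, 36],
  [35, 37, 41],
  [35, 36, 37],
  [36, 39],
  [46, 45],
  [46, 47, 48],
  [46, 48, 49],
  [42, 47, 48],
  [42, 43, 44],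
  [43, 45, 49],
  [43, 44, 45],
  [44, 47],
  [54, 53],
  [54, 55, 56],
  [54, 56, 57],
  [50, 55, 56],
  [50, 51, 52],
  [51, 53, 57],
  [51, 52, 53],
  [52, 55],
  [62, 60, 61],
  [62, 64, 65],
  [58, 63, 64],
  [58, 64, 65],
  [58, 59],
  [60, 65],
  [59, 60, 61],
  [59, 61, 63]]

/-- for every face the list of inclusion-minimal sets of chords whose removal leaves the face 2-plane -/
def minsL : List (List ℕ) := [
  [3, 14, 25, 28, 42, 53, 56, 70, 72, 82, 97, 100, 112, 132, 137, 168, 178, 193, 208],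
  [7, 14, 19, 24, 36, 50, 66, 73, 76, 97, 112, 131, 138, 149, 162, 169, 193, 196, 208],
  [7, 14, 19, 24, 36, 50, 66, 73, 76, 97, 112, 131, 138, 149, 162, 169, 193, 196, 208],
  [7, 14, 19, 24, 36, 50, 66, 73, 76, 97, 112, 131, 138, 149, 162, 169, 193, 196, 208],
  [7, 14, 19, 24, 36, 50, 66, 73, 76, 97, 112, 131, 138, 149, 162, 169, 193, 196, 208],
  [3, 14, 25, 28, 42, 53, 56, 70, 72, 82, 97, 100, 112, 132, 137, 168, 178, 193, 208]]

/-- cycles in copy 1 -/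
def cyc1 : List (ℕ × List (Fin 66 × Fin 14)) := [
  (65792, [(26, 0), (34, 7)]),
  (131584, [(27, 0), (35, 4)]),
  (32772, [(20, 2), (33, 4)]),
  (8388736, [(25, 4), (41, 6)]),
  (526336, [(29, 1), (37, 4)]),
  (1025, [(18, 0), (28, 3)]),
  (262146, [(19, 0), (36, 5)]),
  (4210704, [(22, 2), (40, 6), (32, 7)]),
  (2113544, [(21, 2), (39, 5), (32, 7)]),
  (4202560, [(24, 3), (40, 6), (31, 7)]),
  (2105376, [(23, 3), (39, 5), (31, 7)]),
  (1052688, [(30, 1), (22, 2), (38, 6)]),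
  (2359552, [(26, 0), (39, 7), (36, 5)]),
  (74752, [(28, 0), (31, 3), (34, 7)]),
  (8421392, [(22, 2), (41, 6), (33, 4)]),
  (6148, [(29, 1), (20, 4), (30, 2)]),
  (1572992, [(37, 1), (25, 4), (38, 6)]),
  (263200, [(28, 0), (23, 3), (36, 5)]),
  (262177, [(18, 0), (23, 3), (36, 5)]),
  (1058, [(19, 0), (23, 5), (28, 3)]),
  (180480, [(26, 0), (32, 7), (33, 2), (35, 4)]),
  (12648960, [(27, 0), (41, 4), (40, 6), (34, 7)]),
  (2105347, [(18, 0), (31, 3), (39, 7), (19, 5)]),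
  (4210820, [(20, 2), (25, 4), (40, 6), (32, 7)]),
  (2138633, [(18, 0), (31, 3), (39, 7), (21, 5), (33, 2), (27, 4)]),
  (10625090, [(19, 0), (39, 5), (31, 7), (24, 3), (41, 6), (35, 4)]),
  (12583680, [(26, 0), (40, 7), (41, 6), (27, 4)]),
  (245760, [(34, 0), (32, 7), (33, 2), (35, 4)]),
  (24616, [(21, 2), (23, 5), (31, 3), (32, 7)]),
  (12632064, [(32, 2), (40, 7), (41, 6), (33, 4)]),
  (6291552, [(23, 3), (39, 5), (40, 7), (24, 6)]),
  (8449, [(18, 0), (31, 3), (26, 7)]),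
  (2162690, [(19, 0), (39, 5), (34, 7)]),
  (9439232, [(29, 1), (41, 4), (38, 6)]),
  (561152, [(30, 1), (33, 2), (37, 4)]),
  (705, [(18, 0), (24, 3), (25, 6), (27, 4)]),
  (131086, [(19, 0), (21, 5), (20, 2), (35, 4)]),
  (2368512, [(28, 0), (31, 3), (39, 7), (36, 5)]),
  (7344136, [(30, 1), (21, 2), (39, 5), (40, 7), (38, 6)]),
  (1077312, [(30, 1), (32, 2), (31, 7), (24, 3), (38, 6)]),
  (8388628, [(20, 2), (41, 4), (22, 6)]),
  (32912, [(22, 2), (25, 6), (33, 4)]),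
  (2376196, [(27, 0), (20, 4), (32, 2), (39, 7), (36, 5)]),
  (4334720, [(28, 0), (31, 3), (40, 7), (25, 6), (35, 4)]),
  (4473928, [(28, 0), (24, 3), (40, 6), (32, 7), (21, 2), (36, 5)]),
  (295432, [(27, 0), (33, 4), (21, 2), (36, 5)]),
  (8520768, [(28, 0), (24, 3), (41, 6), (35, 4)]),
  (6288, [(29, 1), (25, 4), (22, 6), (30, 2)]),
  (1572884, [(37, 1), (20, 4), (22, 2), (38, 6)]),
  (12599300, [(20, 2), (41, 4), (40, 6), (32, 7)]),
  (4243584, [(32, 2), (40, 7), (25, 6), (33, 4)]),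
  (4202552, [(21, 2), (23, 5), (31, 3), (40, 7), (22, 6)]),
  (2113648, [(22, 2), (24, 6), (23, 3), (39, 5), (32, 7)]),
  (2376336, [(27, 0), (25, 4), (22, 6), (32, 2), (39, 7), (36, 5)]),
  (12861960, [(27, 0), (41, 4), (40, 6), (32, 7), (21, 2), (36, 5)]),
  (4375616, [(28, 0), (24, 3), (40, 6), (32, 7), (33, 2), (35, 4)]),
  (4334612, [(28, 0), (31, 3), (40, 7), (22, 6), (20, 2), (35, 4)])]

/-- paths from `0` to `1` in copy 1 -/
def pth1 : List (ℕ × List (Fin 66 × Fin 14)) := [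
  (524800, [(27, 0), (37, 4)]),
  (133120, [(35, 0), (29, 4)]),
  (5243136, [(26, 0), (40, 7), (38, 6)]),
  (86016, [(34, 0), (32, 7), (30, 2)]),
  (2560, [(27, 0), (29, 4)]),
  (655360, [(35, 0), (37, 4)]),
  (1049664, [(28, 0), (24, 3), (38, 6)]),
  (266248, [(36, 0), (21, 5), (30, 2)]),
  (1048641, [(18, 0), (24, 3), (38, 6)]),
  (4106, [(19, 0), (21, 5), (30, 2)]),
  (9437696, [(27, 0), (41, 4), (38, 6)]),
  (167936, [(35, 0), (33, 4), (30, 2)]),
  (1065232, [(26, 0), (32, 7), (22, 2), (38, 6)]),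
  (4263952, [(34, 0), (40, 7), (22, 6), (30, 2)]),
  (573696, [(26, 0), (32, 7), (33, 2), (37, 4)]),
  (12650496, [(34, 0), (40, 7), (41, 6), (29, 4)]),
  (5252096, [(28, 0), (31, 3), (40, 7), (38, 6)]),
  (2379776, [(36, 0), (39, 5), (32, 7), (30, 2)]),
  (28673, [(18, 0), (31, 3), (32, 7), (30, 2)]),
  (7340034, [(19, 0), (39, 5), (40, 7), (38, 6)]),
  (1057088, [(26, 0), (31, 7), (24, 3), (38, 6)]),
  (2166792, [(34, 0), (39, 7), (21, 5), (30, 2)]),
  (4612, [(27, 0), (20, 4), (30, 2)]),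
  (1179776, [(35, 0), (25, 4), (38, 6)]),
  (2241, [(18, 0), (24, 3), (25, 6), (29, 4)]),
  (524302, [(19, 0), (21, 5), (20, 2), (37, 4)]),
  (12585216, [(26, 0), (40, 7), (41, 6), (29, 4)]),
  (638976, [(34, 0), (32, 7), (33, 2), (37, 4)]),
  (1049656, [(28, 0), (23, 3), (21, 5), (22, 2), (38, 6)]),
  (266352, [(36, 0), (23, 5), (24, 3), (22, 6), (30, 2)]),
  (4752, [(27, 0), (25, 4), (22, 6), (30, 2)]),
  (3264, [(28, 0), (24, 3), (25, 6), (29, 4)]),
  (1179668, [(35, 0), (20, 4), (22, 2), (38, 6)]),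
  (786444, [(36, 0), (21, 5), (20, 2), (37, 4)]),
  (4727936, [(28, 0), (31, 3), (40, 7), (25, 6), (37, 4)]),
  (2377732, [(36, 0), (39, 5), (32, 7), (20, 2), (29, 4)])]

/-- cycles in copy 2 -/
def cyc2 : List (ℕ × List (Fin 66 × Fin 14)) := [
  (257, [(42, 0), (50, 13)]),
  (514, [(43, 0), (51, 10)]),
  (262272, [(49, 8), (60, 10)]),
  (8421376, [(57, 10), (65, 12)]),
  (2056, [(45, 1), (53, 10)]),
  (65540, [(44, 0), (58, 9)]),
  (132096, [(52, 0), (59, 11)]),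
  (1065024, [(48, 8), (56, 13), (62, 12)]),
  (532544, [(48, 8), (55, 13), (61, 11)]),
  (4210720, [(47, 9), (56, 13), (64, 12)]),
  (2105376, [(47, 9), (55, 13), (63, 11)]),
  (1052688, [(46, 1), (62, 8), (54, 12)]),
  (9217, [(42, 0), (55, 13), (52, 11)]),
  (292, [(44, 0), (47, 9), (50, 13)]),
  (1081472, [(49, 8), (57, 10), (62, 12)]),
  (262168, [(45, 1), (60, 10), (46, 8)]),
  (8394752, [(53, 1), (65, 10), (54, 12)]),
  (2098180, [(44, 0), (63, 9), (52, 11)]),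
  (2228228, [(44, 0), (63, 9), (59, 11)]),
  (2163712, [(52, 0), (63, 11), (58, 9)]),
  (705, [(42, 0), (48, 13), (49, 8), (51, 10)]),
  (49410, [(43, 0), (57, 10), (56, 12), (50, 13)]),
  (204832, [(58, 0), (47, 9), (55, 13), (59, 11)]),
  (8667200, [(48, 8), (56, 13), (65, 12), (60, 10)]),
  (598178, [(43, 0), (49, 10), (61, 8), (55, 11), (47, 13), (58, 9)]),
  (4366880, [(51, 0), (57, 10), (64, 12), (47, 9), (55, 13), (59, 11)]),
  (49155, [(42, 0), (56, 13), (57, 12), (43, 10)]),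
  (960, [(50, 0), (48, 13), (49, 8), (51, 10)]),
  (2621536, [(48, 8), (47, 13), (63, 9), (61, 11)]),
  (49344, [(48, 8), (56, 13), (57, 12), (49, 10)]),
  (6316032, [(63, 9), (55, 11), (56, 13), (64, 12)]),
  (65569, [(42, 0), (47, 13), (58, 9)]),
  (139520, [(50, 0), (55, 13), (59, 11)]),
  (36872, [(45, 1), (57, 10), (54, 12)]),
  (2192, [(46, 1), (49, 8), (53, 10)]),
  (12648450, [(43, 0), (65, 10), (64, 12), (58, 9)]),
  (9252, [(44, 0), (47, 9), (55, 13), (52, 11)]),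
  (918016, [(51, 0), (60, 10), (61, 8), (59, 11)]),
  (4198512, [(46, 1), (48, 8), (47, 13), (64, 9), (54, 12)]),
  (552976, [(46, 1), (61, 8), (55, 11), (56, 13), (54, 12)]),
  (9437312, [(49, 8), (65, 10), (62, 12)]),
  (1343488, [(60, 8), (57, 10), (62, 12)]),
  (271426, [(43, 0), (60, 10), (48, 8), (55, 13), (52, 11)]),
  (8405540, [(44, 0), (47, 9), (56, 13), (65, 12), (51, 10)]),
  (4736068, [(44, 0), (64, 9), (56, 12), (48, 13), (61, 8), (52, 11)]),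
  (525442, [(43, 0), (49, 10), (61, 8), (52, 11)]),
  (4227588, [(44, 0), (64, 9), (57, 12), (51, 10)]),
  (9437208, [(45, 1), (65, 10), (62, 12), (46, 8)]),
  (1316864, [(53, 1), (60, 10), (62, 8), (54, 12)]),
  (311360, [(48, 8), (56, 13), (57, 12), (60, 10)]),
  (8405184, [(48, 8), (56, 13), (65, 12), (49, 10)]),
  (7348288, [(48, 8), (55, 13), (63, 11), (64, 9), (62, 12)]),
  (3686432, [(61, 8), (63, 11), (47, 9), (56, 13), (62, 12)]),
  (574530, [(43, 0), (57, 10), (56, 12), (48, 13), (61, 8), (52, 11)]),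
  (9446466, [(43, 0), (65, 10), (62, 12), (48, 8), (55, 13), (52, 11)]),
  (1327652, [(44, 0), (47, 9), (56, 13), (62, 12), (60, 8), (51, 10)]),
  (4211396, [(44, 0), (64, 9), (56, 12), (48, 13), (49, 8), (51, 10)])]

/-- paths from `0` to `1` in copy 2 -/
def pth2 : List (ℕ × List (Fin 66 × Fin 14)) := [
  (2050, [(43, 0), (53, 10)]),
  (520, [(51, 0), (45, 10)]),
  (20481, [(42, 0), (56, 13), (54, 12)]),
  (336, [(50, 0), (48, 13), (46, 8)]),
  (10, [(43, 0), (45, 10)]),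
  (2560, [(51, 0), (53, 10)]),
  (4198404, [(44, 0), (64, 9), (54, 12)]),
  (525328, [(52, 0), (61, 11), (46, 8)]),
  (4263936, [(58, 0), (64, 9), (54, 12)]),
  (655376, [(59, 0), (61, 11), (46, 8)]),
  (36866, [(43, 0), (57, 10), (54, 12)]),
  (656, [(51, 0), (49, 10), (46, 8)]),
  (1052737, [(42, 0), (48, 13), (62, 8), (54, 12)]),
  (1065232, [(50, 0), (56, 13), (62, 12), (46, 8)]),
  (2241, [(42, 0), (48, 13), (49, 8), (53, 10)]),
  (49416, [(50, 0), (56, 13), (57, 12), (45, 10)]),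
  (20516, [(44, 0), (47, 9), (56, 13), (54, 12)]),
  (9296, [(52, 0), (55, 11), (48, 13), (46, 8)]),
  (4198433, [(42, 0), (47, 13), (64, 9), (54, 12)]),
  (532752, [(50, 0), (55, 13), (61, 11), (46, 8)]),
  (65648, [(58, 0), (47, 9), (48, 13), (46, 8)]),
  (159744, [(59, 0), (55, 11), (56, 13), (54, 12)]),
  (262162, [(43, 0), (60, 10), (46, 8)]),
  (8393216, [(51, 0), (65, 10), (54, 12)]),
  (49161, [(42, 0), (56, 13), (57, 12), (45, 10)]),
  (2496, [(50, 0), (48, 13), (49, 8), (53, 10)]),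
  (12648456, [(58, 0), (64, 9), (65, 12), (45, 10)]),
  (919552, [(59, 0), (61, 11), (60, 8), (53, 10)]),
  (3674116, [(44, 0), (63, 9), (61, 11), (62, 8), (54, 12)]),
  (7341072, [(52, 0), (63, 11), (64, 9), (62, 12), (46, 8)]),
  (9437202, [(43, 0), (65, 10), (62, 12), (46, 8)]),
  (12582924, [(44, 0), (64, 9), (65, 12), (45, 10)]),
  (1315328, [(51, 0), (60, 10), (62, 8), (54, 12)]),
  (789504, [(52, 0), (61, 11), (60, 8), (53, 10)]),
  (8407076, [(44, 0), (47, 9), (56, 13), (65, 12), (53, 10)]),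
  (271432, [(52, 0), (55, 11), (48, 13), (60, 8), (45, 10)])]

end Pool.Agent.Q239.Hex
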