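import Pool.Agent.Q239.Hex.Wind

/-!
# Topological multigraphs with polygonal edges
-/

set_option autoImplicit false

namespace Pool.Agent.Q239.Hex

/-- Data of a topological multigraph in the plane `ℂ` with vertex set `Fin n` and edge set `Fin m`,
whose edges are polygonal arcs: the points of the vertices, the two ends of every edge, and the
list of bend points of every edge, in order from the first end to the second. -/
structure TopGraph (n m : ℕ) where
  /-- the point of a vertex -/
  pt : Fin n → ℂ
  /-- first end of an edge -/
  src : Fin m → Fin n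
  /-- second end of an edge -/
  tgt : Fin m → Fin n
  /-- the bends of an edge -/
  bends : Fin m → List ℂ

namespace TopGraph

variable {n m : ℕ} (G : TopGraph n m)

/-- The corners of an edge, the two ends included. -/
def corners (e : Fin m) : List ℂ := G.pt (G.src e) :: (G.bends e ++ [G.pt (G.tgt e)])

/-- The straight pieces of an edge: pairs of consecutive corners. -/
def pieces (e : Fin m) : List (ℂ × ℂ) := (G.corners e).zip (G.corners e).tail

/-- The arc of an edge: the union of its pieces. -/
def arc (e : Fin m) : Set ℂ := {x | ∃ s ∈ G.pieces e, x ∈ segment ℝ s.1 s.2}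

/-- `v` is an end of the edge `e`. -/
def IsEnd (v : Fin n) (e : Fin m) : Prop := v = G.src e ∨ v = G.tgt e

/-- `x` is a proper crossing point of the edges `e` and `f`: it lies in the interior of a straight
piece of each of them, and these two pieces are not parallel. -/
def ProperAt (e f : Fin m) (x : ℂ) : Prop :=
  ∃ s ∈ G.pieces e, ∃ t ∈ G.pieces f, x ∈ openSegment ℝ s.1 s.2 ∧ x ∈ openSegment ℝ t.1 t.2 ∧
    (s.2 - s.1).re * (t.2 - t.1).im - (s.2 - s.1).im * (t.2 - t.1).re ≠ 0

/-- The conditions on a simple drawing (parallel edges are allowed, loops do not occur). -/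
structure IsDrawing : Prop where
  /-- distinct vertices are distinct points -/
  inj : Function.Injective G.pt
  /-- no loops -/
  noLoop : ∀ e, G.src e ≠ G.tgt e
  /-- every edge is a Jordan arc: its straight pieces are non-degenerate and two of them meet only
  if they are consecutive, and then only in their common corner -/
  nondeg : ∀ e, ∀ s ∈ G.pieces e, s.1 ≠ s.2
  jordan : ∀ e, ∀ (i j : ℕ) (hi : i < (G.pieces e).length) (hj : j < (G.pieces e).length),
    i < j → ∀ x, x ∈ segment ℝ (G.pieces e)[i].1 (G.pieces e)[i].2 →
      x ∈ segment ℝ (G.pieces e)[j].1 (G.pieces e)[j].2 → j = i + 1 ∧ x = (G.pieces e)[i].2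
  /-- an edge contains no vertices except its ends -/
  vertex : ∀ v e, G.pt v ∈ G.arc e → G.IsEnd v e
  /-- a common point of two edges is a common end or a proper crossing -/
  proper : ∀ e f, e ≠ f → ∀ x, x ∈ G.arc e → x ∈ G.arc f →
    (∃ v, x = G.pt v ∧ G.IsEnd v e ∧ G.IsEnd v f) ∨ G.ProperAt e f x
  /-- two edges with a common end do not cross -/
  adjacent : ∀ e f, e ≠ f → (∃ v, G.IsEnd v e ∧ G.IsEnd v f) → ∀ x, ¬ G.ProperAt e f x
  /-- two edges cross at most once -/
  once : ∀ e f, e ≠ f → ∀ x y, G.ProperAt e f x → G.ProperAt e f y → x = y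

/-- `e` and `f` cross. -/
def Cross (e f : Fin m) : Prop := e ≠ f ∧ ∃ x, G.ProperAt e f x

/-- `e` and `f` are parallel: distinct edges with the same two ends. -/
def Parallel (e f : Fin m) : Prop :=
  e ≠ f ∧ ((G.src e = G.src f ∧ G.tgt e = G.tgt f) ∨ (G.src e = G.tgt f ∧ G.tgt e = G.src f))

/-- There are no homotopic parallel edges: the closed curve formed by two parallel edges separates
some vertex of the graph from some other vertex, that is, there are vertices that are not on the
curve and cannot be joined by a path in the complement of the curve (equivalently, both regions of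
the curve contain vertices). -/
def NoHomotopic : Prop :=
  ∀ e f, G.Parallel e f → ∃ u v, G.pt u ∉ G.arc e ∪ G.arc f ∧ G.pt v ∉ G.arc e ∪ G.arc f ∧
    ¬ JoinedIn (G.arc e ∪ G.arc f)ᶜ (G.pt u) (G.pt v)

open Classical in
/-- The subgraph formed by the edges of `A` (with the given drawing) is `k`-plane: every edge of `A`
is crossed by at most `k` edges of `A`. -/
def IsPlane (k : ℕ) (A : Finset (Fin m)) : Prop :=
  ∀ e ∈ A, (A.filter (G.Cross e)).card ≤ k

/-- The edge `e` joins `u` and `v`. -/
def Joins (e : Fin m) (u v : Fin n) : Prop :=
  (G.src e = u ∧ G.tgt e = v) ∨ (G.src e = v ∧ G.tgt e = u)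

/-- The subgraph formed by the edges of `A` is a forest: there are no distinct vertices
`v 0, ..., v k` and distinct edges `e 0, ..., e k` of `A` such that `e i` joins `v i` and `v (i+1)`
(indices modulo `k + 1`). -/
def IsForest (A : Finset (Fin m)) : Prop :=
  ¬ ∃ (k : ℕ) (v : Fin (k + 1) → Fin n) (e : Fin (k + 1) → Fin m),
    Function.Injective v ∧ Function.Injective e ∧ ∀ i, e i ∈ A ∧ G.Joins (e i) (v i) (v (i + 1))

/-- An optimal 3-plane graph: a simple drawing without homotopic parallel edges in which every edge
is crossed at most three times, with `5.5 n - 11` edges. -/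
structure IsOptimal3Plane : Prop where
  drawing : G.IsDrawing
  noHomotopic : G.NoHomotopic
  plane : G.IsPlane 3 Finset.univ
  optimal : 2 * m + 22 = 11 * n

end TopGraph

end Pool.Agent.Q239.Hex
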