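import Pool.Agent.Q239.Hex.Check

/-!
# The drawing is an optimal 3-plane graph
-/

set_option autoImplicit false

namespace Pool.Agent.Q239.Hex

open TopGraph

/-- the example -/
noncomputable def G : TopGraph 14 66 where
  pt v := toC (vp v)
  src := es
  tgt := et
  bends e := (eb e).map toC

lemma corners_eq (e : Fin 66) : G.corners e = (ec e).map toC := by
  simp [TopGraph.corners, G, ec]

/-- cast of a piece -/
noncomputable def cp (s : (ℤ × ℤ) × (ℤ × ℤ)) : ℂ × ℂ := (toC s.1, toC s.2)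

lemma pieces_eq (e : Fin 66) : G.pieces e = (ep e).map cp := by
  rw [TopGraph.pieces, corners_eq, ← List.map_tail, List.zip_map, ep]
  rfl

lemma mem_pieces {e : Fin 66} {s : ℂ × ℂ} : s ∈ G.pieces e ↔ ∃ t ∈ ep e, cp t = s := by
  rw [pieces_eq, List.mem_map]

lemma mem_arc {e : Fin 66} {x : ℂ} :
    x ∈ G.arc e ↔ ∃ t ∈ ep e, x ∈ segment ℝ (toC t.1) (toC t.2) := by
  constructor
  · rintro ⟨s, hs, hx⟩
    obtain ⟨t, ht, rfl⟩ := mem_pieces.mp hs
    exact ⟨t, ht, hx⟩
  · rintro ⟨t, ht, hx⟩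
    exact ⟨cp t, mem_pieces.mpr ⟨t, ht, rfl⟩, hx⟩

lemma body_zip : ∀ (l : List (ℤ × ℤ)) (x : ℂ),
    x ∈ body (l.map toC) ↔ ∃ t ∈ l.zip l.tail, x ∈ segment ℝ (toC t.1) (toC t.2)
  | [], x => by simp [body]
  | [a], x => by simp [body]
  | a :: b :: l, x => by
      have ih := body_zip (b :: l) x
      simp only [List.map_cons, List.tail_cons] at ih ⊢
      rw [body, Set.mem_union, ih]
      constructor
      · rintro (h | ⟨t, ht, h⟩)
        · exact ⟨(a, b), by simp, h⟩
        · exact ⟨t, by rw [List.zip_cons_cons]; exact List.mem_cons_of_mem _ ht, h⟩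
      · rintro ⟨t, ht, h⟩
        rw [List.zip_cons_cons, List.mem_cons] at ht
        rcases ht with rfl | ht
        · exact Or.inl h
        · exact Or.inr ⟨t, ht, h⟩

lemma arc_eq (e : Fin 66) : G.arc e = body ((ec e).map toC) := by
  ext x
  rw [mem_arc, body_zip]
  rfl

lemma ori_toC (a b c : ℤ × ℤ) : ori (toC a) (toC b) (toC c) = (iori a b c : ℝ) := by
  simp only [ori, cr, toC, iori]
  push_cast
  simp

lemma sep_sound {s t : (ℤ × ℤ) × (ℤ × ℤ)} (h : sep s t = true) {x : ℂ}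
    (h1 : x ∈ segment ℝ (toC s.1) (toC s.2)) (h2 : x ∈ segment ℝ (toC t.1) (toC t.2)) : False := by
  simp only [sep, Bool.or_eq_true, decide_eq_true_eq] at h
  rcases h with h | h
  · refine disj_of_side ?_ h1 h2
    rw [ori_toC, ori_toC]; exact_mod_cast h
  · refine disj_of_side ?_ h2 h1
    rw [ori_toC, ori_toC]; exact_mod_cast h

lemma crs_sound {s t : (ℤ × ℤ) × (ℤ × ℤ)} (h : crs s t = true) :
    ori (toC s.1) (toC s.2) (toC t.1) * ori (toC s.1) (toC s.2) (toC t.2) < 0 ∧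
    ori (toC t.1) (toC t.2) (toC s.1) * ori (toC t.1) (toC t.2) (toC s.2) < 0 := by
  simp only [crs, Bool.and_eq_true, decide_eq_true_eq] at h
  obtain ⟨h1, h2⟩ := h
  rw [ori_toC, ori_toC, ori_toC, ori_toC]
  exact ⟨by exact_mod_cast h1, by exact_mod_cast h2⟩

lemma crs_open {s t : (ℤ × ℤ) × (ℤ × ℤ)} (h : crs s t = true) {x : ℂ}
    (h1 : x ∈ segment ℝ (toC s.1) (toC s.2)) (h2 : x ∈ segment ℝ (toC t.1) (toC t.2)) :
    x ∈ openSegment ℝ (toC s.1) (toC s.2) ∧ x ∈ openSegment ℝ (toC t.1) (toC t.2) ∧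
      cr (toC s.2 - toC s.1) (toC t.2 - toC t.1) ≠ 0 := by
  obtain ⟨h3, h4⟩ := crs_sound h
  have n1 : ori (toC s.1) (toC s.2) (toC t.1) ≠ 0 := by intro h0; rw [h0] at h3; simp at h3
  have n2 : ori (toC s.1) (toC s.2) (toC t.2) ≠ 0 := by intro h0; rw [h0] at h3; simp at h3
  have n3 : ori (toC t.1) (toC t.2) (toC s.1) ≠ 0 := by intro h0; rw [h0] at h4; simp at h4
  have n4 : ori (toC t.1) (toC t.2) (toC s.2) ≠ 0 := by intro h0; rw [h0] at h4; simp at h4
  exact ⟨cross_open n3 n4 h1 h2, cross_open n1 n2 h2 h1, cross_indep h3⟩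

/-- trichotomy for pieces of two distinct edges -/
lemma pair_cases {e f : Fin 66} (hef : e ≠ f) {s t : (ℤ × ℤ) × (ℤ × ℤ)} (hs : s ∈ ep e)
    (ht : t ∈ ep f) : sep s t = true ∨ (crs s t = true ∧ ct e f = true ∧ adj e f = false) ∨
      shr e f s t = true := by
  have h := chk_all e f hef
  rw [chk, Bool.and_eq_true, List.all_eq_true] at h
  have h1 := h.1 s hs
  rw [List.all_eq_true] at h1
  have h2 := h1 t ht
  simp only [Bool.or_eq_true, Bool.and_eq_true, Bool.not_eq_true'] at h2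
  tauto

/-- the shared point -/
lemma shr_sound {e f : Fin 66} {s t : (ℤ × ℤ) × (ℤ × ℤ)} (h : shr e f s t = true) {x : ℂ}
    (h1 : x ∈ segment ℝ (toC s.1) (toC s.2)) (h2 : x ∈ segment ℝ (toC t.1) (toC t.2)) :
    (∃ v, x = G.pt v ∧ G.IsEnd v e ∧ G.IsEnd v f) ∧ (x = toC s.1 ∨ x = toC s.2) := by
  simp only [shr, Bool.or_eq_true, Bool.and_eq_true, beq_iff_eq, bne_iff_ne] at h
  rcases h with ((h | h) | h) | h
  · obtain ⟨⟨⟨a1, a2⟩, a3⟩, a4⟩ := h
    have hx : x = toC s.1 := by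
      refine share (b := toC s.2) (d := toC t.2) ?_ h1 ?_
      · rw [ori_toC]; exact_mod_cast a4
      · rw [a2, ← a3]; exact h2
    exact ⟨⟨es e, by rw [hx, a2]; rfl, Or.inl rfl, Or.inl a1⟩, Or.inl hx⟩
  · obtain ⟨⟨⟨a1, a2⟩, a3⟩, a4⟩ := h
    have hx : x = toC s.1 := by
      refine share (b := toC s.2) (d := toC t.1) ?_ h1 ?_
      · rw [ori_toC]; exact_mod_cast a4
      · rw [a2, ← a3, segment_symm]; exact h2
    exact ⟨⟨es e, by rw [hx, a2]; rfl, Or.inl rfl, Or.inr a1⟩, Or.inl hx⟩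
  · obtain ⟨⟨⟨a1, a2⟩, a3⟩, a4⟩ := h
    have hx : x = toC s.2 := by
      refine share (b := toC s.1) (d := toC t.2) ?_ (by rw [segment_symm]; exact h1) ?_
      · rw [ori_toC]; exact_mod_cast a4
      · rw [a2, ← a3]; exact h2
    exact ⟨⟨et e, by rw [hx, a2]; rfl, Or.inr rfl, Or.inl a1⟩, Or.inr hx⟩
  · obtain ⟨⟨⟨a1, a2⟩, a3⟩, a4⟩ := h
    have hx : x = toC s.2 := by
      refine share (b := toC s.1) (d := toC t.1) ?_ (by rw [segment_symm]; exact h1) ?_
      · rw [ori_toC]; exact_mod_cast a4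
      · rw [a2, ← a3, segment_symm]; exact h2
    exact ⟨⟨et e, by rw [hx, a2]; rfl, Or.inr rfl, Or.inr a1⟩, Or.inr hx⟩

lemma ep_ne {e : Fin 66} {s : (ℤ × ℤ) × (ℤ × ℤ)} (hs : s ∈ ep e) : s.1 ≠ s.2 := by
  have h := chk1_all e
  simp only [chk1, Bool.and_eq_true, List.all_eq_true, bne_iff_ne] at h
  exact h.1.2 s hs

lemma not_open_end {e : Fin 66} {s : (ℤ × ℤ) × (ℤ × ℤ)} (hs : s ∈ ep e) {x : ℂ}
    (h : x = toC s.1 ∨ x = toC s.2) : x ∉ openSegment ℝ (toC s.1) (toC s.2) := by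
  have hne : toC s.1 ≠ toC s.2 := fun h0 => ep_ne hs (toC_inj h0)
  intro hx
  rcases h with rfl | rfl
  · exact hne (left_mem_openSegment_iff.mp hx)
  · exact hne (right_mem_openSegment_iff.mp hx)

/-- proper crossing points are crossings of pieces -/
lemma properAt_iff {e f : Fin 66} (hef : e ≠ f) {x : ℂ} : G.ProperAt e f x ↔
    ∃ s ∈ ep e, ∃ t ∈ ep f, crs s t = true ∧ x ∈ segment ℝ (toC s.1) (toC s.2) ∧
      x ∈ segment ℝ (toC t.1) (toC t.2) := by
  constructor
  · rintro ⟨s', hs', t', ht', h1, h2, -⟩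
    obtain ⟨s, hs, rfl⟩ := mem_pieces.mp hs'
    obtain ⟨t, ht, rfl⟩ := mem_pieces.mp ht'
    have k1 := openSegment_subset_segment ℝ _ _ h1
    have k2 := openSegment_subset_segment ℝ _ _ h2
    rcases pair_cases hef hs ht with h | h | h
    · exact (sep_sound h k1 k2).elim
    · exact ⟨s, hs, t, ht, h.1, k1, k2⟩
    · exact absurd h1 (not_open_end hs (shr_sound h k1 k2).2)
  · rintro ⟨s, hs, t, ht, h, h1, h2⟩
    obtain ⟨o1, o2, o3⟩ := crs_open h h1 h2
    refine ⟨cp s, mem_pieces.mpr ⟨s, hs, rfl⟩, cp t, mem_pieces.mpr ⟨t, ht, rfl⟩, o1, o2, ?_⟩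
    exact o3

lemma ct_of_crs {e f : Fin 66} (hef : e ≠ f) {s t : (ℤ × ℤ) × (ℤ × ℤ)} (hs : s ∈ ep e)
    (ht : t ∈ ep f) (h : crs s t = true) (hx : ∃ x, x ∈ segment ℝ (toC s.1) (toC s.2) ∧
      x ∈ segment ℝ (toC t.1) (toC t.2)) : ct e f = true ∧ adj e f = false := by
  obtain ⟨x, h1, h2⟩ := hx
  rcases pair_cases hef hs ht with h' | h' | h'
  · exact (sep_sound h' h1 h2).elim
  · exact h'.2
  · obtain ⟨o1, -, -⟩ := crs_open h h1 h2
    exact absurd o1 (not_open_end hs (shr_sound h' h1 h2).2)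

lemma ct_len {e f : Fin 66} (hef : e ≠ f) (h : ct e f = true) :
    (((ep e).product (ep f)).filter (fun q => crs q.1 q.2)).length = 1 := by
  have h' := chk_all e f hef
  rw [chk, Bool.and_eq_true, if_pos h, beq_iff_eq] at h'
  exact h'.2

theorem cross_iff {e f : Fin 66} (hef : e ≠ f) : G.Cross e f ↔ ct e f = true := by
  constructor
  · rintro ⟨-, x, hx⟩
    obtain ⟨s, hs, t, ht, h, h1, h2⟩ := (properAt_iff hef).mp hx
    exact (ct_of_crs hef hs ht h ⟨x, h1, h2⟩).1
  · intro h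
    have hl := ct_len hef h
    obtain ⟨q, hq⟩ := List.length_eq_one_iff.mp hl
    have hmem : q ∈ ((ep e).product (ep f)).filter (fun q => crs q.1 q.2) := by rw [hq]; simp
    rw [List.mem_filter] at hmem
    obtain ⟨h1, h2⟩ := hmem
    obtain ⟨hs, ht⟩ := List.mem_product.mp h1
    obtain ⟨h3, h4⟩ := crs_sound h2
    obtain ⟨x, hx1, hx2⟩ := cross_exists h3 h4
    exact ⟨hef, x, (properAt_iff hef).mpr ⟨q.1, hs, q.2, ht, h2, hx1, hx2⟩⟩

theorem isDrawing : G.IsDrawing where
  inj u v h := vp_inj u v (toC_inj h)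
  noLoop e := by
    have h := chk1_all e
    simp only [chk1, Bool.and_eq_true, bne_iff_ne] at h
    exact h.1.1
  nondeg e s hs := by
    obtain ⟨t, ht, rfl⟩ := mem_pieces.mp hs
    exact fun h => ep_ne ht (toC_inj h)
  jordan e i j hi hj hij x h1 h2 := by
    have h := chk1_all e
    simp only [chk1, Bool.and_eq_true, List.all_eq_true, List.mem_range] at h
    have hlen : (G.pieces e).length = (ep e).length := by rw [pieces_eq, List.length_map]
    have hj' : j < (ep e).length := hlen ▸ hj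
    have hi' : i < (ep e).length := hlen ▸ hi
    have h3 := h.2 j hj' i hij
    have gi : (G.pieces e)[i] = cp ((ep e)[i]) := by simp [pieces_eq]
    have gj : (G.pieces e)[j] = cp ((ep e)[j]) := by simp [pieces_eq]
    rw [gi] at h1 ⊢
    rw [gj] at h2
    rw [List.getD_eq_getElem _ _ hi', List.getD_eq_getElem _ _ hj'] at h3
    by_cases hji : j = i + 1
    · refine ⟨hji, ?_⟩
      subst hji
      rw [if_pos rfl] at h3
      simp only [bne_iff_ne] at h3
      have hc : (ep e)[i + 1].1 = (ep e)[i].2 := by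
        simp [ep]
      have h2' : x ∈ segment ℝ (toC (ep e)[i].2) (toC (ep e)[i + 1].2) := by
        rw [← hc]; exact h2
      have h1' : x ∈ segment ℝ (toC (ep e)[i].2) (toC (ep e)[i].1) := by
        rw [segment_symm]; exact h1
      change x = toC (ep e)[i].2
      refine share ?_ h1' h2'
      rw [ori_toC]
      have : iori (ep e)[i].2 (ep e)[i].1 (ep e)[i + 1].2 =
          - iori (ep e)[i].1 (ep e)[i].2 (ep e)[i + 1].2 := by
        simp only [iori]; ring
      rw [this]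
      push_cast
      simpa using h3
    · rw [if_neg hji] at h3
      exact (sep_sound h3 h1 h2).elim
  vertex v e h := by
    rcases chkv_all v e with h' | h' | h'
    · exact Or.inl h'
    · exact Or.inr h'
    · obtain ⟨s, hs, hx⟩ := mem_arc.mp h
      rw [List.all_eq_true] at h'
      have h1 := h' s hs
      simp only [bne_iff_ne] at h1
      have h2 := ori_seg_zero hx
      have h3 : ori (toC s.1) (toC s.2) (toC (vp v)) = 0 := h2
      rw [ori_toC] at h3
      exact absurd (by exact_mod_cast h3) h1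
  proper e f hef x he hf := by
    obtain ⟨s, hs, h1⟩ := mem_arc.mp he
    obtain ⟨t, ht, h2⟩ := mem_arc.mp hf
    rcases pair_cases hef hs ht with h | h | h
    · exact (sep_sound h h1 h2).elim
    · exact Or.inr ((properAt_iff hef).mpr ⟨s, hs, t, ht, h.1, h1, h2⟩)
    · exact Or.inl (shr_sound h h1 h2).1
  adjacent e f hef hv x hx := by
    obtain ⟨s, hs, t, ht, h, h1, h2⟩ := (properAt_iff hef).mp hx
    have h3 := (ct_of_crs hef hs ht h ⟨x, h1, h2⟩).2
    simp only [adj, Bool.or_eq_false_iff, beq_eq_false_iff_ne] at h3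
    obtain ⟨⟨⟨n1, n2⟩, n3⟩, n4⟩ := h3
    obtain ⟨v, v1, v2⟩ := hv
    rcases v1 with rfl | rfl <;> rcases v2 with v2 | v2
    · exact n1 v2
    · exact n2 v2
    · exact n3 v2
    · exact n4 v2
  once e f hef x y hx hy := by
    obtain ⟨s, hs, t, ht, h, h1, h2⟩ := (properAt_iff hef).mp hx
    obtain ⟨s', hs', t', ht', h', h1', h2'⟩ := (properAt_iff hef).mp hy
    have hc := (ct_of_crs hef hs ht h ⟨x, h1, h2⟩).1
    obtain ⟨q, hq⟩ := List.length_eq_one_iff.mp (ct_len hef hc)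
    have m1 : (s, t) ∈ ((ep e).product (ep f)).filter (fun q => crs q.1 q.2) :=
      List.mem_filter.mpr ⟨List.mem_product.mpr ⟨hs, ht⟩, h⟩
    have m2 : (s', t') ∈ ((ep e).product (ep f)).filter (fun q => crs q.1 q.2) :=
      List.mem_filter.mpr ⟨List.mem_product.mpr ⟨hs', ht'⟩, h'⟩
    rw [hq, List.mem_singleton] at m1 m2
    have : (s, t) = (s', t') := m1.trans m2.symm
    rw [Prod.mk.injEq] at this
    obtain ⟨rfl, rfl⟩ := this
    exact cross_unique (crs_open h h1 h2).2.2 h1 h2 h1' h2'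

theorem noHomotopic : G.NoHomotopic := by
  rintro e f ⟨hef, hp⟩
  obtain ⟨h1, h2⟩ := par_all e f hef
  rcases hp with hp | hp
  · obtain ⟨u, v, u1, u2, v1, v2, hk⟩ := h1 hp
    have key : ∀ w : Fin 14, w ≠ es e → w ≠ et e →
        toC (vp w) ∉ body ((ec e).map toC) ∧ toC (vp w) ∉ body ((ec f).map toC) := by
      intro w w1 w2
      rw [← arc_eq, ← arc_eq]
      constructor
      · intro h
        rcases isDrawing.vertex w e h with h | h
        · exact w1 h
        · exact w2 h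
      · intro h
        rcases isDrawing.vertex w f h with h | h
        · exact w1 (h.trans hp.1.symm)
        · exact w2 (h.trans hp.2.symm)
    obtain ⟨ku1, ku2⟩ := key u u1 u2
    obtain ⟨kv1, kv2⟩ := key v v1 v2
    refine ⟨u, v, ?_, ?_, ?_⟩
    · rw [arc_eq, arc_eq, Set.mem_union, not_or]; exact ⟨ku1, ku2⟩
    · rw [arc_eq, arc_eq, Set.mem_union, not_or]; exact ⟨kv1, kv2⟩
    · rw [arc_eq, arc_eq]
      have hp1 : es e = es f := hp.1
      have hp2 : et e = et f := hp.2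
      refine separated (A := ec e) (B := ec f) (by simp [ec]) (by simp [ec]) ?_ ?_ ku1 ku2 kv1 kv2 hk
      · simp [ec, hp1]
      · simp [ec, hp2]
  · exact absurd hp h2

theorem plane3 : G.IsPlane 3 Finset.univ := by
  classical
  intro e _
  refine le_trans ?_ (deg_all e)
  calc _ ≤ ((nbL.getD e.val []).toFinset).card := by
        apply Finset.card_le_card
        intro f hf
        rw [Finset.mem_filter] at hf
        have hc := hf.2
        have := (cross_iff hc.1).mp hc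
        rw [ct, List.contains_iff_mem] at this
        rw [List.mem_toFinset]
        exact this
    _ ≤ _ := List.toFinset_card_le _

theorem isOptimal : G.IsOptimal3Plane :=
  ⟨isDrawing, noHomotopic, plane3, by norm_num⟩

end Pool.Agent.Q239.Hex
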