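import Mathlib

/-!
# Elementary plane geometry: orientation tests and winding numbers of closed polygons
-/

set_option autoImplicit false

namespace Pool.Agent.Q239.Hex

/-- the cross product of two vectors of the plane `ℂ` -/
def cr (a b : ℂ) : ℝ := a.re * b.im - a.im * b.re

/-- orientation of three points -/
def ori (a b c : ℂ) : ℝ := cr (b - a) (c - a)

lemma ori_affine (a b c d : ℂ) (s t : ℝ) (h : s + t = 1) :
    ori a b (s • c + t • d) = s * ori a b c + t * ori a b d := by
  have ht : t = 1 - s := by linarith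
  subst ht
  simp only [ori, cr, Complex.sub_re, Complex.sub_im, Complex.add_re, Complex.add_im,
    Complex.real_smul, Complex.mul_re, Complex.mul_im, Complex.ofReal_re, Complex.ofReal_im]
  ring

lemma ori_seg_zero {a b x : ℂ} (h : x ∈ segment ℝ a b) : ori a b x = 0 := by
  obtain ⟨s, t, -, -, hst, rfl⟩ := h
  rw [ori_affine _ _ _ _ _ _ hst]
  simp [ori, cr]
  right; ring

/-- two segments are disjoint when the ends of the second are strictly on the same side of the
first -/
lemma disj_of_side {a b c d x : ℂ} (h : 0 < ori a b c * ori a b d) (h1 : x ∈ segment ℝ a b)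
    (h2 : x ∈ segment ℝ c d) : False := by
  have h0 := ori_seg_zero h1
  obtain ⟨s, t, hs, ht, hst, rfl⟩ := h2
  rw [ori_affine _ _ _ _ _ _ hst] at h0
  rcases pos_and_pos_or_neg_and_neg_of_mul_pos h with ⟨hc, hd⟩ | ⟨hc, hd⟩
  · have : 0 < s * ori a b c + t * ori a b d := by
      rcases hs.lt_or_eq with hs | hs
      · have := mul_pos hs hc; have := mul_nonneg ht hd.le; linarith
      · have : t = 1 := by linarith
        subst this; rw [← hs]; linarith
    linarith
  · have : s * ori a b c + t * ori a b d < 0 := by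
      rcases hs.lt_or_eq with hs | hs
      · have := mul_neg_of_pos_of_neg hs hc
        have := mul_nonpos_of_nonneg_of_nonpos ht hd.le; linarith
      · have : t = 1 := by linarith
        subst this; rw [← hs]; linarith
    linarith

/-- two non-parallel segments with a common end meet only there -/
lemma share {a b d x : ℂ} (h : ori a b d ≠ 0) (h1 : x ∈ segment ℝ a b)
    (h2 : x ∈ segment ℝ a d) : x = a := by
  have h0 := ori_seg_zero h1
  obtain ⟨s, t, hs, ht, hst, rfl⟩ := h2
  rw [ori_affine _ _ _ _ _ _ hst] at h0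
  have : ori a b a = 0 := by simp [ori, cr]
  rw [this, mul_zero, zero_add] at h0
  rcases mul_eq_zero.mp h0 with h0 | h0
  · subst h0
    have : s = 1 := by linarith
    subst this; simp
  · exact absurd h0 h

/-- a common point of two segments that cross properly is in both open segments -/
lemma cross_open {a b c d x : ℂ} (h : ori c d a ≠ 0) (h' : ori c d b ≠ 0)
    (h1 : x ∈ segment ℝ a b) (h2 : x ∈ segment ℝ c d) : x ∈ openSegment ℝ a b := by
  have h0 := ori_seg_zero h2
  have := mem_openSegment_of_ne_left_right (𝕜 := ℝ) (x := a) (y := b) (z := x) ?_ ?_ h1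
  · exact this
  · rintro rfl; exact h h0
  · rintro rfl; exact h' h0

lemma cross_indep {a b c d : ℂ} (h : ori a b c * ori a b d < 0) : cr (b - a) (d - c) ≠ 0 := by
  intro h0
  have : ori a b d = ori a b c + cr (b - a) (d - c) := by
    simp only [ori, cr, Complex.sub_re, Complex.sub_im]; ring
  rw [this, h0, add_zero] at h
  nlinarith [mul_self_nonneg (ori a b c)]

lemma cross_unique {a b c d x y : ℂ} (h : cr (b - a) (d - c) ≠ 0)
    (h1 : x ∈ segment ℝ a b) (h2 : x ∈ segment ℝ c d)
    (h3 : y ∈ segment ℝ a b) (h4 : y ∈ segment ℝ c d) : x = y := by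
  rw [segment_eq_image'] at h1 h2 h3 h4
  obtain ⟨s, -, rfl⟩ := h1
  obtain ⟨t, -, ht⟩ := h2
  obtain ⟨s', -, rfl⟩ := h3
  obtain ⟨t', -, ht'⟩ := h4
  simp only [Complex.ext_iff, Complex.add_re, Complex.add_im, Complex.real_smul, Complex.mul_re,
    Complex.mul_im, Complex.ofReal_re, Complex.ofReal_im, Complex.sub_re, Complex.sub_im] at ht ht' ⊢
  obtain ⟨e1, e2⟩ := ht
  obtain ⟨e3, e4⟩ := ht'
  simp only [cr, Complex.sub_re, Complex.sub_im] at h
  have : (s - s') * ((b.re - a.re) * (d.im - c.im) - (b.im - a.im) * (d.re - c.re)) = 0 := by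
    linear_combination (d.im - c.im) * (e3 - e1) - (d.re - c.re) * (e4 - e2)
  rcases mul_eq_zero.mp this with h5 | h5
  · have : s = s' := by linarith
    subst this
    exact ⟨rfl, rfl⟩
  · exact absurd h5 h

lemma cross_exists {a b c d : ℂ} (h : ori a b c * ori a b d < 0) (h' : ori c d a * ori c d b < 0) :
    ∃ x, x ∈ segment ℝ a b ∧ x ∈ segment ℝ c d := by
  have hD := cross_indep h
  set D := cr (b - a) (d - c) with hDd
  have e1 : ori a b d = ori a b c + D := by
    simp only [hDd, ori, cr, Complex.sub_re, Complex.sub_im]; ring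
  have e2 : ori c d b = ori c d a - D := by
    simp only [hDd, ori, cr, Complex.sub_re, Complex.sub_im]; ring
  set α := ori a b c with hα
  set γ := ori c d a with hγ
  rw [e1] at h
  rw [e2] at h'
  have t1 : 0 ≤ γ / D ∧ γ / D ≤ 1 := by
    rcases lt_or_gt_of_ne hD with h0 | h0
    · constructor
      · apply div_nonneg_of_nonpos _ h0.le
        nlinarith
      · rw [div_le_one_of_neg h0]; nlinarith
    · constructor
      · apply div_nonneg _ h0.le
        nlinarith
      · rw [div_le_one h0]; nlinarith
  have t2 : 0 ≤ -α / D ∧ -α / D ≤ 1 := by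
    rcases lt_or_gt_of_ne hD with h0 | h0
    · constructor
      · apply div_nonneg_of_nonpos _ h0.le
        nlinarith
      · rw [div_le_one_of_neg h0]; nlinarith
    · constructor
      · apply div_nonneg _ h0.le
        nlinarith
      · rw [div_le_one h0]; nlinarith
  refine ⟨a + (γ / D) • (b - a), ?_, ?_⟩
  · rw [segment_eq_image']
    exact ⟨_, t1, rfl⟩
  · rw [segment_eq_image']
    refine ⟨_, t2, ?_⟩
    have key : ∀ p q r s u v w z : ℝ, True := fun _ _ _ _ _ _ _ _ => trivial
    simp only [Complex.ext_iff, Complex.add_re, Complex.add_im, Complex.real_smul, Complex.mul_re,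
      Complex.mul_im, Complex.ofReal_re, Complex.ofReal_im, Complex.sub_re, Complex.sub_im]
    constructor
    · field_simp
      simp only [hα, hγ, hDd, ori, cr, Complex.sub_re, Complex.sub_im]
      ring
    · field_simp
      simp only [hα, hγ, hDd, ori, cr, Complex.sub_re, Complex.sub_im]
      ring

/-! ### winding numbers -/

/-- the jump of the argument along a segment: number of signed crossings of the negative
real half line -/
def kap (a b : ℤ × ℤ) : ℤ :=
  if 0 ≤ a.2 ∧ b.2 < 0 ∧ 0 < a.1 * b.2 - a.2 * b.1 then 1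
  else if a.2 < 0 ∧ 0 ≤ b.2 ∧ a.1 * b.2 - a.2 * b.1 < 0 then -1 else 0

/-- the point of the plane with given integer coordinates -/
noncomputable def toC (a : ℤ × ℤ) : ℂ := ⟨(a.1 : ℝ), (a.2 : ℝ)⟩

lemma toC_sub (a b : ℤ × ℤ) : toC a - toC b = toC (a - b) := by
  apply Complex.ext <;> simp [toC]

lemma toC_inj {a b : ℤ × ℤ} (h : toC a = toC b) : a = b := by
  have h1 := congrArg Complex.re h
  have h2 := congrArg Complex.im h
  simp only [toC] at h1 h2
  exact Prod.ext (by exact_mod_cast h1) (by exact_mod_cast h2)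

lemma slit {a b : ℂ} (h : (0 : ℂ) ∉ segment ℝ a b) : b / a ∈ Complex.slitPlane := by
  have ha : a ≠ 0 := by rintro rfl; exact h (left_mem_segment ℝ _ _)
  by_contra hn
  rw [Complex.mem_slitPlane_iff_not_le_zero, not_not] at hn
  obtain ⟨hr, hi⟩ := Complex.le_def.mp hn
  simp only [Complex.zero_re, Complex.zero_im] at hr hi
  set r := (b / a).re with hrd
  have hba : b = (r : ℂ) * a := by
    have : b / a = (r : ℂ) := Complex.ext (by simp [hrd]) (by simp [hi])
    rw [← this, div_mul_cancel₀ _ ha]
  apply h
  have hpos : 0 < 1 - r := by linarith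
  refine ⟨-r / (1 - r), 1 / (1 - r), div_nonneg (by linarith) hpos.le, by positivity,
    by field_simp; ring, ?_⟩
  rw [hba]
  simp only [Complex.real_smul]
  have : (1 - (r : ℂ)) ≠ 0 := by
    have := hpos.ne'
    exact_mod_cast this
  push_cast
  field_simp
  ring

lemma arg_quot {a b : ℂ} (h : (0 : ℂ) ∉ segment ℝ a b) :
    ∃ k : ℤ, Complex.arg (b / a) = Complex.arg b - Complex.arg a + 2 * Real.pi * k := by
  have ha : a ≠ 0 := by rintro rfl; exact h (left_mem_segment ℝ _ _)
  have hb : b ≠ 0 := by rintro rfl; exact h (right_mem_segment ℝ _ _)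
  have := Complex.arg_div_coe_angle hb ha
  rw [← Real.Angle.coe_sub, Real.Angle.angle_eq_iff_two_pi_dvd_sub] at this
  obtain ⟨k, hk⟩ := this
  exact ⟨k, by linarith⟩

end Pool.Agent.Q239.Hex
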