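import Pool.Agent.Q239.Hex.Geo

/-!
# Two polygonal arcs with common ends: a criterion for points to be separated by their union
-/

set_option autoImplicit false

namespace Pool.Agent.Q239.Hex

open Real

/-- union of the segments between consecutive points of a list -/
def body : List ℂ → Set ℂ
  | a :: b :: l => segment ℝ a b ∪ body (b :: l)
  | _ => ∅

/-- total variation of the argument seen from `z` -/
noncomputable def W : List ℂ → ℂ → ℝ
  | a :: b :: l, z => Complex.arg ((b - z) / (a - z)) + W (b :: l) z
  | _, _ => 0

/-- total jump of the argument seen from `z` -/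
def kapsum : List (ℤ × ℤ) → ℤ × ℤ → ℤ
  | a :: b :: l, z => kap (a - z) (b - z) + kapsum (b :: l) z
  | _, _ => 0

lemma zero_notMem {a b z : ℂ} (h : z ∉ segment ℝ a b) : (0 : ℂ) ∉ segment ℝ (a - z) (b - z) := by
  intro h0
  apply h
  obtain ⟨s, t, hs, ht, hst, h1⟩ := h0
  refine ⟨s, t, hs, ht, hst, ?_⟩
  have : s • a + t • b - (s + t) • z = 0 := by
    rw [← h1]; module
  rw [hst, one_smul, sub_eq_zero] at this
  exact this

lemma W_int : ∀ (a : ℂ) (l : List ℂ) (z : ℂ), z ∉ body (a :: l) →
    ∃ k : ℤ, W (a :: l) z = Complex.arg ((a :: l).getLast (by simp) - z) - Complex.arg (a - z)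
      + 2 * π * k
  | a, [], z, _ => ⟨0, by simp [W]⟩
  | a, b :: l, z, h => by
      have h1 : z ∉ segment ℝ a b := fun h' => h (Or.inl h')
      have h2 : z ∉ body (b :: l) := fun h' => h (Or.inr h')
      obtain ⟨k, hk⟩ := arg_quot (zero_notMem h1)
      obtain ⟨k', hk'⟩ := W_int b l z h2
      refine ⟨k + k', ?_⟩
      have hl : (a :: b :: l).getLast (by simp) = (b :: l).getLast (by simp) :=
        List.getLast_cons (by simp)
      rw [W, hk, hk', hl]
      push_cast
      ring

lemma W_cont : ∀ (l : List ℂ), ContinuousOn (W l) (body l)ᶜ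
  | [] => by
      have : W [] = fun _ => 0 := by funext z; simp [W]
      rw [this]; exact continuousOn_const
  | [a] => by
      have : W [a] = fun _ => 0 := by funext z; simp [W]
      rw [this]; exact continuousOn_const
  | a :: b :: l => by
      have h1 : ContinuousOn (W (b :: l)) (body (a :: b :: l))ᶜ :=
        (W_cont (b :: l)).mono (Set.compl_subset_compl.mpr Set.subset_union_right)
      have h2 : ContinuousOn (fun z => Complex.arg ((b - z) / (a - z))) (body (a :: b :: l))ᶜ := by
        intro z hz
        have hz1 : z ∉ segment ℝ a b := fun h' => hz (Or.inl h')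
        have hs := slit (zero_notMem hz1)
        have ha : a - z ≠ 0 := by
          intro h0
          apply hz1
          rw [← sub_eq_zero.mp h0]
          exact left_mem_segment ℝ _ _
        have hc : ContinuousAt (fun z => (b - z) / (a - z)) z :=
          (continuousAt_const.sub continuousAt_id).div (continuousAt_const.sub continuousAt_id) ha
        exact ((Complex.continuousAt_arg hs).comp_of_eq hc rfl).continuousWithinAt
      have : W (a :: b :: l) = fun z => Complex.arg ((b - z) / (a - z)) + W (b :: l) z := by
        funext z; simp [W]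
      rw [this]
      exact h2.add h1

/-- The difference of the two variations is constant on path components. -/
lemma W_joined {A B : List ℂ} (hA : A ≠ []) (hB : B ≠ []) (h0 : A.head hA = B.head hB)
    (h1 : A.getLast hA = B.getLast hB) {p q : ℂ} (h : JoinedIn (body A ∪ body B)ᶜ p q) :
    W A p - W B p = W A q - W B q := by
  obtain ⟨γ, hγ⟩ := h
  set g : unitInterval → ℝ := fun t => W A (γ t) - W B (γ t) with hg
  have hint : ∀ t, ∃ k : ℤ, g t = 2 * π * k := by
    intro t
    have ht := hγ t
    rw [Set.mem_compl_iff, Set.mem_union, not_or] at ht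
    obtain ⟨a, A', rfl⟩ := List.exists_cons_of_ne_nil hA
    obtain ⟨b, B', rfl⟩ := List.exists_cons_of_ne_nil hB
    obtain ⟨k, hk⟩ := W_int a A' (γ t) ht.1
    obtain ⟨k', hk'⟩ := W_int b B' (γ t) ht.2
    simp only [List.head_cons] at h0
    refine ⟨k - k', ?_⟩
    simp only [hg]
    rw [hk, hk', h1, h0]
    push_cast
    ring
  have hcont : Continuous g := by
    have hA1 : ContinuousOn (W A) (body A ∪ body B)ᶜ :=
      (W_cont A).mono (Set.compl_subset_compl.mpr Set.subset_union_left)
    have hB1 : ContinuousOn (W B) (body A ∪ body B)ᶜ :=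
      (W_cont B).mono (Set.compl_subset_compl.mpr Set.subset_union_right)
    have := (hA1.sub hB1).comp_continuous γ.continuous hγ
    exact this
  have hconst : ∀ t t' : unitInterval, g t = g t' := by
    have hloc : IsLocallyConstant g := by
      rw [IsLocallyConstant.iff_exists_open]
      intro t
      refine ⟨g ⁻¹' Metric.ball (g t) (2 * π), Metric.isOpen_ball.preimage hcont, ?_, ?_⟩
      · exact Metric.mem_ball_self (by positivity)
      · intro t' ht'
        obtain ⟨k, hk⟩ := hint t
        obtain ⟨k', hk'⟩ := hint t'
        simp only [Set.mem_preimage, Metric.mem_ball, Real.dist_eq] at ht'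
        rw [hk, hk', ← mul_sub, abs_mul, abs_of_pos (by positivity : (0 : ℝ) < 2 * π)] at ht'
        have h3 : |(k' : ℝ) - k| < 1 := by
          have : (2 * π) * |(k' : ℝ) - k| < 2 * π * 1 := by rw [mul_one]; exact ht'
          exact lt_of_mul_lt_mul_left this (by positivity)
        have h4 : |k' - k| < 1 := by exact_mod_cast h3
        have h5 : k' = k := by
          have := Int.abs_lt_one_iff.mp h4
          omega
        rw [hk, hk', h5]
    intro t t'
    exact hloc.apply_eq_of_preconnectedSpace t t'
  have := hconst 0 1
  simpa [hg] using this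

lemma arg_kap {a b : ℤ × ℤ} (h : (0 : ℂ) ∉ segment ℝ (toC a) (toC b)) :
    Complex.arg (toC b / toC a) = Complex.arg (toC b) - Complex.arg (toC a)
      + 2 * π * kap a b := by
  have ha : toC a ≠ 0 := by intro h0; rw [h0] at h; exact h (left_mem_segment ℝ _ _)
  have hb : toC b ≠ 0 := by intro h0; rw [h0] at h; exact h (right_mem_segment ℝ _ _)
  obtain ⟨k, hk⟩ := arg_quot h
  have hs := slit h
  have hpi := Real.pi_pos
  have hlt : Complex.arg (toC b / toC a) < π :=
    lt_of_le_of_ne (Complex.arg_le_pi _) (Complex.mem_slitPlane_iff_arg.mp hs).1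
  have hgt := Complex.neg_pi_lt_arg (toC b / toC a)
  have hN : 0 < Complex.normSq (toC a) := Complex.normSq_pos.mpr ha
  have him : (toC b / toC a).im = ((a.1 * b.2 - a.2 * b.1 : ℤ) : ℝ) / Complex.normSq (toC a) := by
    rw [Complex.div_im]
    simp only [toC]
    push_cast
    ring
  have hre : (toC b / toC a).re = ((a.1 * b.1 + a.2 * b.2 : ℤ) : ℝ) / Complex.normSq (toC a) := by
    rw [Complex.div_re]
    simp only [toC]
    push_cast
    ring
  have b1 := Complex.neg_pi_lt_arg (toC b)
  have b2 := Complex.arg_le_pi (toC b)
  have a1 := Complex.neg_pi_lt_arg (toC a)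
  have a2 := Complex.arg_le_pi (toC a)
  have ka : ∀ z : ℤ × ℤ, 0 ≤ z.2 → 0 ≤ Complex.arg (toC z) := by
    intro z hz
    rw [Complex.arg_nonneg_iff]
    simp only [toC]; exact_mod_cast hz
  have kn : ∀ z : ℤ × ℤ, z.2 < 0 → Complex.arg (toC z) < 0 := by
    intro z hz
    rw [Complex.arg_neg_iff]
    simp only [toC]; exact_mod_cast hz
  have hkk : k = kap a b := by
    have kbound : ∀ x y : ℝ, 2 * π * k < 2 * π * x → 2 * π * y < 2 * π * k → (k : ℝ) < x ∧ y < k := by
      intro x y h1 h2
      exact ⟨lt_of_mul_lt_mul_left h1 (by positivity), lt_of_mul_lt_mul_left h2 (by positivity)⟩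
    unfold kap
    rcases le_or_gt 0 a.2 with p | p <;> rcases le_or_gt 0 b.2 with q | q
    · -- both nonneg
      rw [if_neg (by rintro ⟨-, h2, -⟩; omega), if_neg (by rintro ⟨h2, -⟩; omega)]
      have := ka a p; have := ka b q
      obtain ⟨h1, h2⟩ := kbound 1 (-1) (by linarith) (by linarith)
      have h1' : k < 1 := by exact_mod_cast h1
      have h2' : -1 < k := by exact_mod_cast h2
      omega
    · -- a nonneg, b neg
      have h3 := ka a p; have h4 := kn b q
      rw [if_neg (c := a.2 < 0 ∧ _) (by rintro ⟨h2, -⟩; omega)]
      rcases lt_trichotomy 0 (a.1 * b.2 - a.2 * b.1) with hc | hc | hc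
      · rw [if_pos ⟨p, q, hc⟩]
        have h5 : 0 ≤ Complex.arg (toC b / toC a) := by
          rw [Complex.arg_nonneg_iff, him]
          exact div_nonneg (by exact_mod_cast hc.le) hN.le
        have h6 : (toC b / toC a).im ≠ 0 := by
          rw [him]
          exact (div_pos (by exact_mod_cast hc) hN).ne'
        have h7 : 0 < Complex.arg (toC b / toC a) := by
          rcases h5.lt_or_eq with h8 | h8
          · exact h8
          · exact absurd (Complex.arg_eq_zero_iff.mp h8.symm).2 h6
        obtain ⟨h1, h2⟩ := kbound 2 0 (by linarith) (by linarith)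
        have h1' : k < 2 := by exact_mod_cast h1
        have h2' : 0 < k := by exact_mod_cast h2
        omega
      · -- parallel: impossible or positive
        rw [if_neg (by rintro ⟨-, -, h2⟩; omega)]
        exfalso
        have h6 : (toC b / toC a).im = 0 := by rw [him, ← hc]; simp
        have h7 : Complex.arg (toC b / toC a) = 0 := by
          rcases Complex.mem_slitPlane_iff.mp hs with h8 | h8
          · exact Complex.arg_eq_zero_iff.mpr ⟨h8.le, h6⟩
          · exact absurd h6 h8
        rw [h7] at hk
        -- arg b - arg a + 2πk = 0, arg a in [0,π], arg b in (-π,0)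
        have hcase : a.2 = 0 ∨ 0 < a.2 := by omega
        rcases hcase with h8 | h8
        · have : a.1 * b.2 = 0 := by rw [h8] at hc; linarith
          rcases mul_eq_zero.mp this with h9 | h9
          · apply ha
            apply Complex.ext <;> simp [toC, h8, h9]
          · omega
        · -- then re b / a < 0
          have h9 : (a.1 * b.1 + a.2 * b.2) * a.2 = b.2 * (a.1 ^ 2 + a.2 ^ 2) := by
            have : a.2 * b.1 = a.1 * b.2 := by linarith
            calc (a.1 * b.1 + a.2 * b.2) * a.2 = a.1 * (a.2 * b.1) + a.2 * b.2 * a.2 := by ring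
              _ = _ := by rw [this]; ring
          have h10 : b.2 * (a.1 ^ 2 + a.2 ^ 2) < 0 := by
            apply mul_neg_of_neg_of_pos q
            have := sq_nonneg a.1
            have := pow_pos h8 2
            linarith
          have h11 : a.1 * b.1 + a.2 * b.2 < 0 := by
            rw [← h9] at h10
            by_contra h12
            push Not at h12
            have := mul_nonneg h12 h8.le
            linarith
          have h12 : (toC b / toC a).re < 0 := by
            rw [hre]
            exact div_neg_of_neg_of_pos (by exact_mod_cast h11) hN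
          rcases Complex.mem_slitPlane_iff.mp hs with h13 | h13
          · linarith
          · exact h13 h6
      · rw [if_neg (by rintro ⟨-, -, h2⟩; omega)]
        have h5 : Complex.arg (toC b / toC a) < 0 := by
          rw [Complex.arg_neg_iff, him]
          exact div_neg_of_neg_of_pos (by exact_mod_cast hc) hN
        obtain ⟨h1, h2⟩ := kbound 1 (-1) (by linarith) (by linarith)
        have h1' : k < 1 := by exact_mod_cast h1
        have h2' : -1 < k := by exact_mod_cast h2
        omega
    · -- a neg, b nonneg
      have h3 := kn a p; have h4 := ka b q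
      rw [if_neg (c := 0 ≤ a.2 ∧ _) (by rintro ⟨h2, -⟩; omega)]
      rcases lt_trichotomy (a.1 * b.2 - a.2 * b.1) 0 with hc | hc | hc
      · rw [if_pos ⟨p, q, hc⟩]
        have h5 : Complex.arg (toC b / toC a) < 0 := by
          rw [Complex.arg_neg_iff, him]
          exact div_neg_of_neg_of_pos (by exact_mod_cast hc) hN
        obtain ⟨h1, h2⟩ := kbound 0 (-2) (by linarith) (by linarith)
        have h1' : k < 0 := by exact_mod_cast h1
        have h2' : -2 < k := by exact_mod_cast h2
        omega
      · rw [if_neg (by rintro ⟨-, -, h2⟩; omega)]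
        exfalso
        have h6 : (toC b / toC a).im = 0 := by rw [him, hc]; simp
        have h9 : (a.1 * b.1 + a.2 * b.2) * a.2 = b.2 * (a.1 ^ 2 + a.2 ^ 2) := by
          have : a.2 * b.1 = a.1 * b.2 := by linarith
          calc (a.1 * b.1 + a.2 * b.2) * a.2 = a.1 * (a.2 * b.1) + a.2 * b.2 * a.2 := by ring
            _ = _ := by rw [this]; ring
        have hq : b.2 = 0 ∨ 0 < b.2 := by omega
        rcases hq with h8 | h8
        · have : a.2 * b.1 = 0 := by rw [h8] at hc; linarith
          rcases mul_eq_zero.mp this with h10 | h10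
          · omega
          · apply hb
            apply Complex.ext <;> simp [toC, h8, h10]
        · have h10 : 0 < b.2 * (a.1 ^ 2 + a.2 ^ 2) := by
            apply mul_pos h8
            have := sq_nonneg a.1
            have := pow_pos (neg_pos.mpr p) 2
            have h11 : (-a.2) ^ 2 = a.2 ^ 2 := by ring
            linarith
          have h11 : a.1 * b.1 + a.2 * b.2 < 0 := by
            rw [← h9] at h10
            by_contra h12
            push Not at h12
            have := mul_nonneg h12 (neg_nonneg.mpr p.le)
            linarith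
          have h12 : (toC b / toC a).re < 0 := by
            rw [hre]
            exact div_neg_of_neg_of_pos (by exact_mod_cast h11) hN
          rcases Complex.mem_slitPlane_iff.mp hs with h13 | h13
          · linarith
          · exact h13 h6
      · rw [if_neg (by rintro ⟨-, -, h2⟩; omega)]
        have h5 : 0 ≤ Complex.arg (toC b / toC a) := by
          rw [Complex.arg_nonneg_iff, him]
          exact div_nonneg (by exact_mod_cast hc.le) hN.le
        obtain ⟨h1, h2⟩ := kbound 1 (-1) (by linarith) (by linarith)
        have h1' : k < 1 := by exact_mod_cast h1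
        have h2' : -1 < k := by exact_mod_cast h2
        omega
    · -- both negative
      rw [if_neg (by rintro ⟨h2, -⟩; omega), if_neg (by rintro ⟨-, h2, -⟩; omega)]
      have := kn a p; have := kn b q
      obtain ⟨h1, h2⟩ := kbound 1 (-1) (by linarith) (by linarith)
      have h1' : k < 1 := by exact_mod_cast h1
      have h2' : -1 < k := by exact_mod_cast h2
      omega
  rw [hk, hkk]

lemma W_kapsum : ∀ (a : ℤ × ℤ) (l : List (ℤ × ℤ)) (z : ℤ × ℤ),
    toC z ∉ body ((a :: l).map toC) →
    W ((a :: l).map toC) (toC z) = Complex.arg (toC ((a :: l).getLast (by simp)) - toC z)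
      - Complex.arg (toC a - toC z) + 2 * π * kapsum (a :: l) z
  | a, [], z, _ => by simp [W, kapsum]
  | a, b :: l, z, h => by
      have h1 : toC z ∉ segment ℝ (toC a) (toC b) := fun h' => h (Or.inl h')
      have h2 : toC z ∉ body ((b :: l).map toC) := fun h' => h (Or.inr h')
      have h3 := zero_notMem h1
      rw [toC_sub, toC_sub] at h3
      have hk := arg_kap h3
      have hk' := W_kapsum b l z h2
      have hl : (a :: b :: l).getLast (by simp) = (b :: l).getLast (by simp) :=
        List.getLast_cons (by simp)
      simp only [List.map_cons] at hk' ⊢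
      rw [W, hk', hl, kapsum, toC_sub, toC_sub a, hk]
      push_cast
      ring

/-- Integer points with different values of the jump difference are separated by the union of two
polygonal arcs with the same ends. -/
theorem separated {A B : List (ℤ × ℤ)} (hA : A ≠ []) (hB : B ≠ [])
    (h0 : A.head hA = B.head hB) (h1 : A.getLast hA = B.getLast hB) {p q : ℤ × ℤ}
    (hpA : toC p ∉ body (A.map toC)) (hpB : toC p ∉ body (B.map toC))
    (hqA : toC q ∉ body (A.map toC)) (hqB : toC q ∉ body (B.map toC))
    (h : kapsum A p - kapsum B p ≠ kapsum A q - kapsum B q) :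
    ¬ JoinedIn (body (A.map toC) ∪ body (B.map toC))ᶜ (toC p) (toC q) := by
  intro hj
  apply h
  have hA' : A.map toC ≠ [] := by simpa using hA
  have hB' : B.map toC ≠ [] := by simpa using hB
  have := W_joined hA' hB' (by rw [List.head_map, List.head_map, h0])
    (by rw [List.getLast_map, List.getLast_map, h1]) hj
  obtain ⟨a, A', rfl⟩ := List.exists_cons_of_ne_nil hA
  obtain ⟨b, B', rfl⟩ := List.exists_cons_of_ne_nil hB
  simp only [List.head_cons] at h0
  subst h0
  rw [W_kapsum a A' p hpA, W_kapsum a B' p hpB, W_kapsum a A' q hqA, W_kapsum a B' q hqB,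
    h1] at this
  have hpi := Real.pi_pos
  have h2 : (2 * π) * ((kapsum (a :: A') p : ℝ) - kapsum (a :: B') p) =
      (2 * π) * ((kapsum (a :: A') q : ℝ) - kapsum (a :: B') q) := by
    linarith
  have h3 := mul_left_cancel₀ (by positivity : (2 * π : ℝ) ≠ 0) h2
  exact_mod_cast h3

end Pool.Agent.Q239.Hex
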